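import Pool.Agent.Q289.OP.Stm

/-!
# The lattice condition for the volumes and the weights
-/

set_option autoImplicit false

namespace Pool.Agent.Q238.OP

open Q289.OP Filter Topology

section

variable {ι : Type} [Fintype ι] [DecidableEq ι] [PartialOrder ι]

/-- the set counted by `cnt` -/
def SS (c : ι → ℕ) (M : ℕ) : Set (ι → ℕ) :=
  {y | (∀ i, M * c i ≤ y i ∧ y i < M * c i + M) ∧ Monotone y}

lemma SS_fin (c : ι → ℕ) (M : ℕ) : (SS c M).Finite := by
  refine (Set.finite_Icc (fun i => M * c i) (fun i => M * c i + M)).subset ?_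
  intro y hy
  exact ⟨fun i => (hy.1 i).1, fun i => (hy.1 i).2.le⟩

lemma cnt_eq (c : ι → ℕ) (M : ℕ) : cnt c M = (SS_fin c M).toFinset.card := by
  rw [cnt]
  exact Set.ncard_eq_toFinset_card _ (SS_fin c M)

lemma cnt_mul (c d : ι → ℕ) (M : ℕ) : cnt c M * cnt d M ≤ cnt (c ⊓ d) M * cnt (c ⊔ d) M := by
  classical
  rw [cnt_eq, cnt_eq, cnt_eq, cnt_eq]
  refine (Finset.le_card_infs_mul_card_sups _ _).trans
    (Nat.mul_le_mul (Finset.card_le_card ?_) (Finset.card_le_card ?_))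
  · intro z hz
    obtain ⟨y, hy, x, hx, rfl⟩ := Finset.mem_infs.1 hz
    rw [Set.Finite.mem_toFinset] at hy hx ⊢
    refine ⟨fun i => ?_, hy.2.inf hx.2⟩
    have h1 := hy.1 i
    have h2 := hx.1 i
    have e1 : (c ⊓ d) i = min (c i) (d i) := rfl
    have e2 : (y ⊓ x) i = min (y i) (x i) := rfl
    rw [e1, e2]
    rcases le_total (c i) (d i) with h | h
    · have h3 := Nat.mul_le_mul_left M h
      rw [min_eq_left h]
      omega
    · have h3 := Nat.mul_le_mul_left M h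
      rw [min_eq_right h]
      omega
  · intro z hz
    obtain ⟨y, hy, x, hx, rfl⟩ := Finset.mem_sups.1 hz
    rw [Set.Finite.mem_toFinset] at hy hx ⊢
    refine ⟨fun i => ?_, hy.2.sup hx.2⟩
    have h1 := hy.1 i
    have h2 := hx.1 i
    have e1 : (c ⊔ d) i = max (c i) (d i) := rfl
    have e2 : (y ⊔ x) i = max (y i) (x i) := rfl
    rw [e1, e2]
    rcases le_total (c i) (d i) with h | h
    · have h3 := Nat.mul_le_mul_left M h
      rw [max_eq_right h]
      omega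
    · have h3 := Nat.mul_le_mul_left M h
      rw [max_eq_left h]
      omega

end

theorem fkg_vv (h : S_CNT) : S_FKG := by
  intro ι _ _ _ c d
  have h0 : ∀ e : ι → ℕ, 0 ≤ vv e := fun e => ENNReal.toReal_nonneg
  have key : ∀ M : ℕ, 0 < M → vv c * vv d ≤
      (vv (c ⊓ d) + (Fintype.card ι : ℝ) ^ 2 / M) * (vv (c ⊔ d) + (Fintype.card ι : ℝ) ^ 2 / M) := by
    intro M hM
    have hM' : (0 : ℝ) < M := by exact_mod_cast hM
    have hp : (0 : ℝ) < (M : ℝ) ^ Fintype.card ι := by positivity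
    have up : ∀ e : ι → ℕ, (cnt e M : ℝ) ≤
        (vv e + (Fintype.card ι : ℝ) ^ 2 / M) * (M : ℝ) ^ Fintype.card ι := by
      intro e
      have h3 : (cnt e M : ℝ) ≤ (vv e * (M : ℝ) ^ (Fintype.card ι + 1) +
        (Fintype.card ι : ℝ) ^ 2 * (M : ℝ) ^ Fintype.card ι) / M :=
        (le_div_iff₀ hM').2 (h ι e M hM).2
      refine h3.trans (le_of_eq ?_)
      rw [pow_succ]
      field_simp
    have lo : ∀ e : ι → ℕ, vv e * (M : ℝ) ^ Fintype.card ι ≤ cnt e M := fun e => (h ι e M hM).1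
    have hm : (cnt c M : ℝ) * cnt d M ≤ (cnt (c ⊓ d) M : ℝ) * cnt (c ⊔ d) M := by
      exact_mod_cast cnt_mul c d M
    have n1 : 0 ≤ vv d * (M : ℝ) ^ Fintype.card ι := mul_nonneg (h0 d) hp.le
    have n2 : 0 ≤ (vv (c ⊓ d) + (Fintype.card ι : ℝ) ^ 2 / M) * (M : ℝ) ^ Fintype.card ι :=
      mul_nonneg (add_nonneg (h0 _) (by positivity)) hp.le
    have e1 : vv c * vv d * ((M : ℝ) ^ Fintype.card ι * (M : ℝ) ^ Fintype.card ι) ≤
        ((vv (c ⊓ d) + (Fintype.card ι : ℝ) ^ 2 / M) *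
          (vv (c ⊔ d) + (Fintype.card ι : ℝ) ^ 2 / M)) *
          ((M : ℝ) ^ Fintype.card ι * (M : ℝ) ^ Fintype.card ι) := by
      calc vv c * vv d * ((M : ℝ) ^ Fintype.card ι * (M : ℝ) ^ Fintype.card ι)
          = (vv c * (M : ℝ) ^ Fintype.card ι) * (vv d * (M : ℝ) ^ Fintype.card ι) := by ring
        _ ≤ (cnt c M : ℝ) * cnt d M := mul_le_mul (lo c) (lo d) n1 (Nat.cast_nonneg _)
        _ ≤ (cnt (c ⊓ d) M : ℝ) * cnt (c ⊔ d) M := hm
        _ ≤ ((vv (c ⊓ d) + (Fintype.card ι : ℝ) ^ 2 / M) * (M : ℝ) ^ Fintype.card ι) *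
            ((vv (c ⊔ d) + (Fintype.card ι : ℝ) ^ 2 / M) * (M : ℝ) ^ Fintype.card ι) :=
          mul_le_mul (up _) (up _) (Nat.cast_nonneg _) n2
        _ = _ := by ring
    exact le_of_mul_le_mul_right e1 (by positivity)
  have t0 : Tendsto (fun M : ℕ => (Fintype.card ι : ℝ) ^ 2 / M) atTop (𝓝 0) :=
    tendsto_const_div_atTop_nhds_zero_nat _
  have t1 : Tendsto (fun M : ℕ => (vv (c ⊓ d) + (Fintype.card ι : ℝ) ^ 2 / M) *
      (vv (c ⊔ d) + (Fintype.card ι : ℝ) ^ 2 / M)) atTop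
      (𝓝 ((vv (c ⊓ d) + 0) * (vv (c ⊔ d) + 0))) :=
    (tendsto_const_nhds.add t0).mul (tendsto_const_nhds.add t0)
  rw [add_zero, add_zero] at t1
  exact ge_of_tendsto t1 ((eventually_gt_atTop 0).mono fun M hM => key M hM)

theorem isw (h : S_FKG) (h2 : S_VPOS) : S_ISW := by
  intro ι _ _ _ N q hq
  have hp : ∀ c : ι → Fin (N + 1), 0 < ∏ i, q (c i) := fun c => Finset.prod_pos fun i _ => hq _
  refine ⟨fun c => ?_, fun c => ?_, fun c d => ?_⟩
  · exact mul_nonneg (hp c).le (h2 ι _).1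
  · rw [ww, mul_pos_iff_of_pos_left (hp c), (h2 ι _).2.2]
    exact ⟨fun m i j hij => Fin.le_def.2 (m hij), fun m i j hij => Fin.le_def.1 (m hij)⟩
  · have e1 : (fun i => ((c ⊓ d) i : ℕ)) = (fun i => (c i : ℕ)) ⊓ (fun i => (d i : ℕ)) := by
      funext i
      simp only [Pi.inf_apply]
      rcases le_total (c i) (d i) with hh | hh
      · rw [inf_eq_left.2 hh, inf_eq_left.2 (Fin.le_def.1 hh)]
      · rw [inf_eq_right.2 hh, inf_eq_right.2 (Fin.le_def.1 hh)]
    have e2 : (fun i => ((c ⊔ d) i : ℕ)) = (fun i => (c i : ℕ)) ⊔ (fun i => (d i : ℕ)) := by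
      funext i
      simp only [Pi.sup_apply]
      rcases le_total (c i) (d i) with hh | hh
      · rw [sup_eq_right.2 hh, sup_eq_right.2 (Fin.le_def.1 hh)]
      · rw [sup_eq_left.2 hh, sup_eq_left.2 (Fin.le_def.1 hh)]
    have e3 : (∏ i, q (c i)) * (∏ i, q (d i)) =
        (∏ i, q ((c ⊓ d) i)) * ∏ i, q ((c ⊔ d) i) := by
      rw [← Finset.prod_mul_distrib, ← Finset.prod_mul_distrib]
      refine Finset.prod_congr rfl fun i _ => ?_
      simp only [Pi.inf_apply, Pi.sup_apply]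
      rcases le_total (c i) (d i) with hh | hh
      · rw [inf_eq_left.2 hh, sup_eq_right.2 hh]
      · rw [inf_eq_right.2 hh, sup_eq_left.2 hh, mul_comm]
    unfold ww
    rw [e1, e2]
    calc (∏ i, q (c i)) * vv (fun i => (c i : ℕ)) * ((∏ i, q (d i)) * vv (fun i => (d i : ℕ)))
        = ((∏ i, q (c i)) * (∏ i, q (d i))) *
          (vv (fun i => (c i : ℕ)) * vv (fun i => (d i : ℕ))) := by ring
      _ ≤ ((∏ i, q (c i)) * (∏ i, q (d i))) *
          (vv ((fun i => (c i : ℕ)) ⊓ (fun i => (d i : ℕ))) *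
            vv ((fun i => (c i : ℕ)) ⊔ (fun i => (d i : ℕ)))) :=
          mul_le_mul_of_nonneg_left (h ι _ _) (mul_pos (hp c) (hp d)).le
      _ = _ := by rw [e3]; ring

end Pool.Agent.Q238.OP
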